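import Pool.Agent.Helper12.Cc.BigA
import Pool.Agent.Helper26.Cc.Stm
import Mathlib.MeasureTheory.Measure.Hausdorff

/-! # Large values of the Weyl function are rare -/

set_option autoImplicit false

open MeasureTheory Filter Topology
open scoped ENNReal NNReal ComplexConjugate InnerProductSpace

namespace Pool.Agent.Helper12.Cc

open Pool.Agent.TH369.AN Pool.Agent.TH369.MU Pool.Agent.Helper26.Rg Pool.Agent.Helper26.Cc

lemma ep_pos (k : ℕ) : 0 < ep k := by
  unfold ep
  positivity

lemma ep_le (k : ℕ) : ep k ≤ 1 := by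
  unfold ep
  rw [div_le_one (by positivity)]
  have : (0 : ℝ) ≤ k := Nat.cast_nonneg k
  linarith

/-- the bound on horizontal lines -/
theorem big_z (K L η : ℝ) (hη : 0 < η) : ∃ R₀ : ℝ, 0 < R₀ ∧
    ∀ (X : Type) [NormedAddCommGroup X] [InnerProductSpace ℂ X] [CompleteSpace X]
      (T : X →L[ℂ] X), IsSelfAdjoint T → ‖T‖ ≤ K → ∀ e : X, ‖e‖ = 1 →
      ∀ k : ℕ, volume {E : ℝ | E ∈ Set.Icc (-L) L ∧ R₀ < ‖wf T e (zk E k)‖} ≤
        ENNReal.ofReal η := by
  obtain ⟨B, hB⟩ : ∃ B : ℝ, B = 3 + |K| + (2 * |K|) ^ 2 := ⟨_, rfl⟩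
  have hB1 : 1 ≤ B := by
    have h1 := abs_nonneg K
    have h2 : 0 ≤ (2 * |K|) ^ 2 := by positivity
    rw [hB]; linarith
  have hlB : 0 ≤ Real.log B := Real.log_nonneg hB1
  obtain ⟨C, hC⟩ : ∃ C : ℝ, C = 2 * Real.pi * (2 + Real.log B) := ⟨_, rfl⟩
  have hC0 : 0 < C := by
    have := Real.pi_pos
    rw [hC]; positivity
  obtain ⟨c, hc⟩ : ∃ c : ℝ, c = 2 / (1 + L ^ 2) := ⟨_, rfl⟩
  have hc0 : 0 < c := by rw [hc]; positivity
  obtain ⟨lam, hlam⟩ : ∃ lam : ℝ, lam = C / (c * η) := ⟨_, rfl⟩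
  have hlam0 : 0 < lam := by rw [hlam]; positivity
  refine ⟨Real.exp lam + 1, by positivity, ?_⟩
  intro X _ _ _ T hT hK e he k
  have he0 : e ≠ 0 := by
    intro h
    rw [h, norm_zero] at he
    exact zero_ne_one he
  have hKK : ‖T‖ ≤ |K| := hK.trans (le_abs_self K)
  have hn1 : ∀ z : ℂ, 0 < z.im → wf T e z + Complex.I ≠ 0 := by
    intro z hz h
    have := one_le_wfI hT he0 hz
    rw [h, norm_zero] at this
    linarith
  have key := vol_small (h := fun z => (wf T e z + Complex.I)⁻¹) (g := fun _ => (1 : ℂ))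
    (fun z hz => ((diff_wf hT he0 hz.ne').add_const _).inv (hn1 z hz))
    (fun z _ => differentiableAt_const _)
    (fun z hz => by
      rw [Complex.one_re, Real.sqrt_le_one, norm_inv]
      exact inv_le_one_of_one_le₀ (one_le_wfI hT he0 hz))
    (ε := ep k) (C := C) (lam := lam) (L := L) (ep_pos k) hlam0
    (by
      refine inv_ne_zero (hn1 _ ?_)
      have := ep_pos k
      simp only [Complex.mul_im, Complex.ofReal_re, Complex.I_im, mul_one, Complex.ofReal_im,
        Complex.I_re, mul_zero, add_zero]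
      linarith)
    (by
      have hp := ep_pos k
      have hp1 := ep_le k
      obtain ⟨z, hz⟩ : ∃ z : ℂ, z = ((1 + ep k : ℝ) : ℂ) * Complex.I := ⟨_, rfl⟩
      have hzi : z.im = 1 + ep k := by
        rw [hz]
        simp only [Complex.mul_im, Complex.ofReal_re, Complex.I_im, mul_one, Complex.ofReal_im,
          Complex.I_re, mul_zero, add_zero]
      have hzn : ‖z‖ = 1 + ep k := by
        rw [hz, norm_mul, Complex.norm_I, mul_one, Complex.norm_real, Real.norm_eq_abs,
          abs_of_pos (by linarith)]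
      rw [← hz]
      have h1 := wf_far hT he (z := z) (by linarith)
      have h2 := one_le_wfI hT he0 (z := z) (by linarith)
      have h3 : ‖wf T e z + Complex.I‖ ≤ B := by
        have h4 := norm_add_le (wf T e z) Complex.I
        rw [Complex.norm_I] at h4
        have h5 : (2 * ‖T‖) ^ 2 ≤ (2 * |K|) ^ 2 :=
          pow_le_pow_left₀ (by positivity) (by linarith) 2
        rw [hB]
        linarith
      rw [norm_inv, Real.log_inv, Complex.one_re, hC]
      have h4 : Real.log ‖wf T e z + Complex.I‖ ≤ Real.log B :=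
        Real.log_le_log (by linarith) h3
      have := Real.pi_pos
      refine mul_le_mul_of_nonneg_left ?_ (by positivity)
      linarith)
    (η := η)
    (by
      rw [← hc, hlam]
      refine le_of_eq ?_
      field_simp)
  refine (measure_mono ?_).trans key
  rintro E ⟨hE1, hE2⟩
  refine ⟨hE1, ?_⟩
  have h1 : zk E k = (E : ℂ) + ((ep k : ℝ) : ℂ) * Complex.I := rfl
  rw [← h1]
  have h2 : Real.exp lam < ‖wf T e (zk E k) + Complex.I‖ := by
    have h3 : ‖wf T e (zk E k)‖ ≤ ‖wf T e (zk E k) + Complex.I‖ + 1 := by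
      calc ‖wf T e (zk E k)‖ = ‖(wf T e (zk E k) + Complex.I) - Complex.I‖ := by
            rw [add_sub_cancel_right]
        _ ≤ ‖wf T e (zk E k) + Complex.I‖ + ‖Complex.I‖ := norm_sub_le _ _
        _ = _ := by rw [Complex.norm_I]
    linarith
  show ‖(wf T e (zk E k) + Complex.I)⁻¹‖ < Real.exp (-lam)
  rw [norm_inv, Real.exp_neg]
  exact inv_strictAnti₀ (Real.exp_pos _) h2

/-! ## the curve -/

lemma mvt {f g : ℝ → ℝ} (hd : ∀ E, HasDerivAt f (g E) E) (a b : ℝ) :
    ∃ c, f a - f b = g c * (a - b) := by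
  have hcf : Continuous f := continuous_iff_continuousAt.2 fun x => (hd x).continuousAt
  rcases lt_trichotomy a b with h | h | h
  · obtain ⟨c, -, hc⟩ := exists_hasDerivAt_eq_slope f g h hcf.continuousOn fun x _ => hd x
    refine ⟨c, ?_⟩
    have : b - a ≠ 0 := by linarith
    rw [hc]
    field_simp
    ring
  · exact ⟨a, by rw [h]; ring⟩
  · obtain ⟨c, -, hc⟩ := exists_hasDerivAt_eq_slope f g h hcf.continuousOn fun x _ => hd x
    refine ⟨c, ?_⟩
    have : a - b ≠ 0 := by linarith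
    rw [hc]
    field_simp

lemma pre_vol {h f g : ℝ → ℝ} (hC : Cur h f g) {m : ℝ} (hm : 0 < m) (hg : ∀ E, m ≤ |g E|)
    (S : Set ℝ) : volume {E : ℝ | f E ∈ S} ≤ ENNReal.ofReal (1 / m) * volume S := by
  have hL : LipschitzWith (Real.toNNReal (1 / m)) h := by
    refine LipschitzWith.of_dist_le_mul fun x y => ?_
    rw [Real.dist_eq, Real.dist_eq, Real.coe_toNNReal _ (by positivity)]
    obtain ⟨c, hc⟩ := mvt hC.der (h x) (h y)
    rw [hC.hf, hC.hf] at hc
    have h1 : |x - y| = |g c| * |h x - h y| := by rw [hc, abs_mul]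
    rw [h1]
    have h2 := hg c
    have h3 := abs_nonneg (h x - h y)
    have h4 : m * |h x - h y| ≤ |g c| * |h x - h y| := mul_le_mul_of_nonneg_right h2 h3
    rw [div_mul_eq_mul_div, one_mul, le_div_iff₀ hm]
    linarith
  have h1 : {E : ℝ | f E ∈ S} ⊆ h '' S := by
    intro E hE
    exact ⟨f E, hE, hC.fh E⟩
  have h2 := hL.hausdorffMeasure_image_le (d := 1) zero_le_one S
  rw [hausdorffMeasure_real, ENNReal.rpow_one] at h2
  exact (measure_mono h1).trans h2

/-- `BIG`: large values of the Weyl function are rare -/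
theorem big : S_Big := by
  intro h f g hC K L η hη
  obtain ⟨m, M, hm, hmM⟩ := hC.bd
  have hM : 0 < M := lt_of_lt_of_le hm ((hmM 0).1.trans (hmM 0).2)
  obtain ⟨R₁, hR₁, H₁⟩ := big_z K L η hη
  obtain ⟨L', hL'⟩ : ∃ L' : ℝ, L' = |f 0| + M * |L| := ⟨_, rfl⟩
  have hL'0 : 0 ≤ L' := by rw [hL']; positivity
  obtain ⟨R₂, hR₂, H₂⟩ := big_z K L' (m * η) (by positivity)
  obtain ⟨A, hA⟩ : ∃ A : ℝ, A = 1 + (M + 1) * (2 + 1 / m) := ⟨_, rfl⟩
  have hA0 : 0 < A := by rw [hA]; positivity
  obtain ⟨R₃, hR₃⟩ : ∃ R₃ : ℝ, R₃ = A * (R₂ + (L' + 1 + |K|)) + (L' + M + |K|) := ⟨_, rfl⟩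
  refine ⟨max R₁ R₃, lt_of_lt_of_le hR₁ (le_max_left _ _), ?_⟩
  intro ι T hT hK e he k
  refine ⟨(measure_mono ?_).trans (H₁ (Pool.Agent.H5R2.NB.L2 ι) T hT hK e he k), ?_⟩
  · rintro E ⟨h1, h2⟩
    exact ⟨h1, lt_of_le_of_lt (le_max_left _ _) h2⟩
  · have hsub : {E : ℝ | E ∈ Set.Icc (-L) L ∧ max R₁ R₃ < ‖wf T e (zc f g E k)‖} ⊆
        {E : ℝ | f E ∈ {x : ℝ | x ∈ Set.Icc (-L') L' ∧ R₂ < ‖wf T e (zk x k)‖}} := by
      rintro E ⟨h1, h2⟩
      have hEL : |E| ≤ L := abs_le.2 h1
      have hLL : |E| ≤ |L| := hEL.trans (le_abs_self L)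
      have hfE : |f E| ≤ L' := by
        obtain ⟨c, hc⟩ := mvt hC.der E 0
        have e1 : f E = f 0 + g c * (E - 0) := by linarith
        rw [e1, hL']
        refine (abs_add_le _ _).trans ?_
        rw [sub_zero, abs_mul]
        have := mul_le_mul (hmM c).2 hLL (abs_nonneg _) hM.le
        linarith
      refine ⟨abs_le.1 hfE, ?_⟩
      have h3 : R₃ < ‖wf T e (zc f g E k)‖ := lt_of_le_of_lt (le_max_right _ _) h2
      have hp := ep_pos k
      have hp1 := ep_le k
      have hKK : ‖T‖ ≤ |K| := hK.trans (le_abs_self K)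
      have hg0 : 0 < |g E| := lt_of_lt_of_le hm (hmM E).1
      -- reduce to a point in the upper half plane
      have hup : ‖wf T e (zc f g E k)‖ =
          ‖wf T e (((f E : ℝ) : ℂ) + ((|g E| * ep k : ℝ) : ℂ) * Complex.I)‖ := by
        rcases le_or_gt 0 (g E) with hg | hg
        · rw [abs_of_nonneg hg]
          rfl
        · have e1 : ((f E : ℝ) : ℂ) + ((|g E| * ep k : ℝ) : ℂ) * Complex.I =
              conj (zc f g E k) := by
            unfold zc
            rw [abs_of_neg hg]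
            simp only [map_add, map_mul, Complex.conj_ofReal, Complex.conj_I]
            push_cast
            ring
          have e2 : (zc f g E k).im ≠ 0 := by
            unfold zc
            simp only [Complex.add_im, Complex.ofReal_im, Complex.mul_im, Complex.ofReal_re,
              Complex.I_im, Complex.I_re, mul_one, mul_zero, add_zero, zero_add]
            exact mul_ne_zero hg.ne hp.ne'
          rw [e1, wf_conj hT e2, Complex.norm_conj]
      rw [hup] at h3
      have h4 := wf_cmp hT he (x := f E) (a := |g E| * ep k) (b := ep k) (m := m) (M := M)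
        (by positivity) hp hm (mul_le_mul_of_nonneg_right (hmM E).1 hp.le)
        (mul_le_mul_of_nonneg_right (hmM E).2 hp.le)
      rw [← hA] at h4
      have h5 : ((f E : ℝ) : ℂ) + ((ep k : ℝ) : ℂ) * Complex.I = zk (f E) k := rfl
      rw [h5] at h4
      by_contra h6
      rw [not_lt] at h6
      have h7 : |g E| * ep k ≤ M := by
        have := mul_le_mul (hmM E).2 hp1 hp.le hM.le
        linarith
      have h8 : A * (‖wf T e (zk (f E) k)‖ + (|f E| + ep k + ‖T‖)) ≤
          A * (R₂ + (L' + 1 + |K|)) := by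
        refine mul_le_mul_of_nonneg_left ?_ hA0.le
        linarith
      linarith
    refine (measure_mono hsub).trans ((pre_vol hC hm (fun E => (hmM E).1) _).trans ?_)
    refine (mul_le_mul_right (H₂ (Pool.Agent.H5R2.NB.L2 ι) T hT hK e he k) _).trans ?_
    rw [← ENNReal.ofReal_mul (by positivity)]
    refine ENNReal.ofReal_le_ofReal (le_of_eq ?_)
    field_simp

end Pool.Agent.Helper12.Cc
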