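import Pool.Agent.Helper26.Rg.Jen
import Pool.Agent.Helper26.Rg.Res

/-! # Large values of the Weyl function are rare: the horizontal lines -/

set_option autoImplicit false

open MeasureTheory Filter Topology
open scoped ENNReal NNReal ComplexConjugate InnerProductSpace

namespace Pool.Agent.Helper12.Cc

open Pool.Agent.TH369.AN Pool.Agent.TH369.MU Pool.Agent.Helper26.Rg

/-- from the logarithmic integral to the measure of the set of small values -/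
lemma vol_small {h g : ℂ → ℂ} (hd : ∀ z : ℂ, 0 < z.im → DifferentiableAt ℂ h z)
    (gd : ∀ z : ℂ, 0 < z.im → DifferentiableAt ℂ g z)
    (hle : ∀ z : ℂ, 0 < z.im → Real.sqrt ‖h z‖ ≤ (g z).re) {ε C lam L : ℝ} (hε : 0 < ε)
    (hlam : 0 < lam) (h0 : h (((1 + ε : ℝ) : ℂ) * Complex.I) ≠ 0)
    (hC : 2 * Real.pi * (2 * (g (((1 + ε : ℝ) : ℂ) * Complex.I)).re -
        Real.log ‖h (((1 + ε : ℝ) : ℂ) * Complex.I)‖) ≤ C) {η : ℝ}
    (hη : C ≤ 2 / (1 + L ^ 2) * lam * η) :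
    volume {E : ℝ | E ∈ Set.Icc (-L) L ∧
      ‖h ((E : ℂ) + (ε : ℂ) * Complex.I)‖ < Real.exp (-lam)} ≤ ENNReal.ofReal η := by
  set c : ℝ := 2 / (1 + L ^ 2) with hc
  have hcpos : 0 < c := by positivity
  set δ : ℝ := Real.exp (-lam) with hδd
  have hδ : 0 < δ := Real.exp_pos _
  have hδ1 : δ < 1 := by
    rw [hδd, Real.exp_lt_one_iff]
    linarith
  have hlogδ : -Real.log δ = lam := by
    rw [hδd, Real.log_exp, neg_neg]
  have hl := line_nu hd gd hle hε hδ hδ1 h0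
  have hl3 := hl.trans hC
  set f : ℝ → ℝ := fun E => (2 / (1 + E ^ 2)) *
    nu δ ‖h ((E : ℂ) + (ε : ℂ) * Complex.I)‖ with hf
  have hhc : Continuous fun E : ℝ => h ((E : ℂ) + (ε : ℂ) * Complex.I) :=
    cont_line hd hε
  have hfc : Continuous f := by
    have h1 : Continuous fun E : ℝ => nu δ ‖h ((E : ℂ) + (ε : ℂ) * Complex.I)‖ :=
      (nu_cont hδ).comp hhc.norm
    have h2 : Continuous fun E : ℝ => 2 / (1 + E ^ 2) := by
      refine Continuous.div (by fun_prop) (by fun_prop) fun E => ?_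
      positivity
    exact h2.mul h1
  have hf0 : ∀ E, 0 ≤ f E := fun E => mul_nonneg (by positivity) (nu_nonneg _ _)
  have hfi : Integrable f := by
    have h1 : Integrable (fun E : ℝ => (1 + E ^ 2)⁻¹) := integrable_inv_one_add_sq
    refine Integrable.mono' (h1.const_mul (2 * lam)) hfc.aestronglyMeasurable
      (Eventually.of_forall fun E => ?_)
    rw [Real.norm_of_nonneg (hf0 E)]
    simp only [hf]
    have h3 := nu_le hδ hδ1 ‖h ((E : ℂ) + (ε : ℂ) * Complex.I)‖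
    rw [hlogδ] at h3
    have h4 : (0 : ℝ) ≤ 2 / (1 + E ^ 2) := by positivity
    calc _ ≤ 2 / (1 + E ^ 2) * lam := mul_le_mul_of_nonneg_left h3 h4
      _ = _ := by ring
  set A : Set ℝ := {E : ℝ | E ∈ Set.Icc (-L) L ∧ ‖h ((E : ℂ) + (ε : ℂ) * Complex.I)‖ < δ}
    with hA
  have hAm : MeasurableSet A :=
    measurableSet_Icc.inter (isOpen_lt hhc.norm continuous_const).measurableSet
  have hAfin : volume A ≠ ⊤ := by
    refine ne_top_of_le_ne_top ?_ (measure_mono (fun E hE => hE.1 : A ⊆ Set.Icc (-L) L))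
    rw [Real.volume_Icc]
    exact ENNReal.ofReal_ne_top
  have hAf : c * lam * volume.real A ≤ ∫ E in A, f E := by
    have h1 : ∫ E in A, c * lam ≤ ∫ E in A, f E := by
      refine setIntegral_mono_on (integrableOn_const hAfin) hfi.integrableOn hAm fun E hE => ?_
      simp only [hf]
      rw [nu_eq hδ hδ1 hE.2.le, hlogδ]
      refine mul_le_mul_of_nonneg_right ?_ hlam.le
      rw [hc]
      refine div_le_div_of_nonneg_left (by norm_num) (by positivity) ?_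
      have h5 : E ^ 2 ≤ L ^ 2 := by
        have h6 : |E| ≤ L := abs_le.2 hE.1
        calc E ^ 2 = |E| ^ 2 := (sq_abs E).symm
          _ ≤ L ^ 2 := pow_le_pow_left₀ (abs_nonneg _) h6 2
      linarith
    rw [setIntegral_const, smul_eq_mul] at h1
    linarith [h1]
  have hAf2 : ∫ E in A, f E ≤ ∫ E, f E :=
    setIntegral_le_integral hfi (Eventually.of_forall hf0)
  have hfin : volume.real A ≤ η := by
    have h1 : c * lam * volume.real A ≤ C := hAf.trans (hAf2.trans hl3)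
    have h3 : 0 < c * lam := by positivity
    exact le_of_mul_le_mul_left (h1.trans hη) h3
  rw [← ENNReal.ofReal_toReal hAfin]
  exact ENNReal.ofReal_le_ofReal hfin

section

variable {X : Type} [NormedAddCommGroup X] [InnerProductSpace ℂ X] [CompleteSpace X]
variable {T : X →L[ℂ] X} {e : X}

lemma wf_pos (hT : IsSelfAdjoint T) (he : e ≠ 0) {z : ℂ} (hz : 0 < z.im) : 0 < (wf T e z).im := by
  have h1 := wf_ne hT he hz.ne'
  have h2 : 0 ≤ (wf T e z).im := by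
    rw [wf_im hT he hz.ne']
    positivity
  exact lt_of_le_of_ne h2 (Ne.symm h1)

lemma one_le_wfI (hT : IsSelfAdjoint T) (he : e ≠ 0) {z : ℂ} (hz : 0 < z.im) :
    1 ≤ ‖wf T e z + Complex.I‖ := by
  have h1 := wf_pos hT he hz
  have h2 := Complex.abs_im_le_norm (wf T e z + Complex.I)
  rw [Complex.add_im, Complex.I_im] at h2
  have h3 := le_abs_self ((wf T e z).im + 1)
  linarith

lemma norm_q (he : ‖e‖ = 1) : ‖(1 - ro e : X →L[ℂ] X) (T e)‖ ≤ 2 * ‖T‖ := by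
  have h1 : (1 - ro e : X →L[ℂ] X) (T e) = T e - ⟪e, T e⟫_ℂ • e := rfl
  have h2 : ‖T e‖ ≤ ‖T‖ := by
    have := T.le_opNorm e
    rwa [he, mul_one] at this
  have h3 : ‖⟪e, T e⟫_ℂ‖ ≤ ‖T e‖ := by
    have := norm_inner_le_norm (𝕜 := ℂ) e (T e)
    rwa [he, one_mul] at this
  rw [h1]
  calc _ ≤ ‖T e‖ + ‖⟪e, T e⟫_ℂ • e‖ := norm_sub_le _ _
    _ = ‖T e‖ + ‖⟪e, T e⟫_ℂ‖ := by rw [norm_smul, he, mul_one]
    _ ≤ _ := by linarith

lemma norm_eTe (he : ‖e‖ = 1) : ‖⟪e, T e⟫_ℂ‖ ≤ ‖T‖ := by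
  have h2 : ‖T e‖ ≤ ‖T‖ := by
    have := T.le_opNorm e
    rwa [he, mul_one] at this
  have h3 : ‖⟪e, T e⟫_ℂ‖ ≤ ‖T e‖ := by
    have := norm_inner_le_norm (𝕜 := ℂ) e (T e)
    rwa [he, one_mul] at this
  exact h3.trans h2

/-- the size of the Weyl function far from the real line -/
lemma wf_far (hT : IsSelfAdjoint T) (he : ‖e‖ = 1) {z : ℂ} (hz : 1 ≤ z.im) :
    ‖wf T e z‖ ≤ ‖z‖ + ‖T‖ + (2 * ‖T‖) ^ 2 := by
  have hz0 : z.im ≠ 0 := by linarith
  rw [schur hT he hz0]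
  set q : X := (1 - ro e : X →L[ℂ] X) (T e) with hq
  have hqn : ‖q‖ ≤ 2 * ‖T‖ := norm_q he
  have h1 : ‖⟪q, Rz (cp T e) z q⟫_ℂ‖ ≤ (2 * ‖T‖) ^ 2 := by
    have h2 := norm_inner_le_norm (𝕜 := ℂ) q (Rz (cp T e) z q)
    have h3 := rz_norm (cp T e) (cp_sa T hT e) z hz0 q
    have h4 : ‖q‖ / |z.im| ≤ ‖q‖ := by
      refine div_le_self (norm_nonneg _) ?_
      exact hz.trans (le_abs_self _)
    calc _ ≤ ‖q‖ * ‖Rz (cp T e) z q‖ := h2
      _ ≤ ‖q‖ * ‖q‖ := mul_le_mul_of_nonneg_left (h3.trans h4) (norm_nonneg _)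
      _ ≤ (2 * ‖T‖) * (2 * ‖T‖) := mul_le_mul hqn hqn (norm_nonneg _) (by positivity)
      _ = _ := by ring
  calc _ ≤ ‖z - ⟪e, T e⟫_ℂ‖ + ‖⟪q, Rz (cp T e) z q⟫_ℂ‖ := norm_add_le _ _
    _ ≤ ‖z‖ + ‖⟪e, T e⟫_ℂ‖ + ‖⟪q, Rz (cp T e) z q⟫_ℂ‖ := by
        have := norm_sub_le z ⟪e, T e⟫_ℂ
        linarith
    _ ≤ _ := by
        have := norm_eTe (T := T) he
        linarith

/-- the comparison of two points above the same energy -/
lemma wf_cmp (hT : IsSelfAdjoint T) (he : ‖e‖ = 1) {x a b m M : ℝ} (ha : 0 < a) (hb : 0 < b)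
    (hm : 0 < m) (h1 : m * b ≤ a) (h2 : a ≤ M * b) :
    ‖wf T e ((x : ℂ) + (a : ℂ) * Complex.I)‖ ≤
      (1 + (M + 1) * (2 + 1 / m)) * (‖wf T e ((x : ℂ) + (b : ℂ) * Complex.I)‖ +
        (|x| + b + ‖T‖)) + (|x| + a + ‖T‖) := by
  obtain ⟨z, hz⟩ : ∃ z : ℂ, z = (x : ℂ) + (a : ℂ) * Complex.I := ⟨_, rfl⟩
  obtain ⟨w, hw⟩ : ∃ w : ℂ, w = (x : ℂ) + (b : ℂ) * Complex.I := ⟨_, rfl⟩
  have hzi : z.im = a := by rw [hz]; simp
  have hwi : w.im = b := by rw [hw]; simp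
  have hz0 : z.im ≠ 0 := by rw [hzi]; exact ha.ne'
  have hw0 : w.im ≠ 0 := by rw [hwi]; exact hb.ne'
  have hzc : (conj z).im ≠ 0 := by rw [Complex.conj_im]; exact neg_ne_zero.2 hz0
  have hS := cp_sa T hT e
  rw [← hz, ← hw]
  set S := cp T e with hSd
  set q : X := (1 - ro e : X →L[ℂ] X) (T e) with hq
  have hM : 0 < M := by
    have : 0 < M * b := lt_of_lt_of_le ha h2
    exact (pos_iff_pos_of_mul_pos this).2 hb
  -- the resolvent identities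
  have r1 : ∀ (z1 : ℂ), z1.im ≠ 0 → Rz S z1 q = Rz S w q + (z1 - w) • Rz S z1 (Rz S w q) := by
    intro z1 hz1
    symm
    apply rz_uniq S hS z1 hz1
    have e1 := rz_eq S hS z1 hz1 (Rz S w q)
    have e2 := rz_eq S hS w hw0 q
    have e3 : S (Rz S z1 (Rz S w q)) = Rz S w q + z1 • Rz S z1 (Rz S w q) := by
      rw [← sub_eq_iff_eq_add]; exact e1
    have e4 : S (Rz S w q) = q + w • Rz S w q := by
      rw [← sub_eq_iff_eq_add]; exact e2
    rw [map_add, map_smul, e3, e4]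
    module
  have n1 : ∀ (z1 : ℂ), z1.im ≠ 0 → ‖Rz S z1 q‖ ≤ (1 + ‖z1 - w‖ / |z1.im|) * ‖Rz S w q‖ := by
    intro z1 hz1
    have e1 := rz_norm S hS z1 hz1 (Rz S w q)
    calc ‖Rz S z1 q‖ = ‖Rz S w q + (z1 - w) • Rz S z1 (Rz S w q)‖ := by rw [← r1 z1 hz1]
      _ ≤ ‖Rz S w q‖ + ‖(z1 - w) • Rz S z1 (Rz S w q)‖ := norm_add_le _ _
      _ = ‖Rz S w q‖ + ‖z1 - w‖ * ‖Rz S z1 (Rz S w q)‖ := by rw [norm_smul]
      _ ≤ ‖Rz S w q‖ + ‖z1 - w‖ * (‖Rz S w q‖ / |z1.im|) := by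
          have := mul_le_mul_of_nonneg_left e1 (norm_nonneg (z1 - w))
          linarith
      _ = _ := by ring
  have hzw : z - w = ((a - b : ℝ) : ℂ) * Complex.I := by
    rw [hz, hw]; push_cast; ring
  have hcw : conj z - w = ((-(a + b) : ℝ) : ℂ) * Complex.I := by
    rw [hz, hw]
    simp only [map_add, map_mul, Complex.conj_ofReal, Complex.conj_I]
    push_cast; ring
  have d1 : ‖z - w‖ = |a - b| := by
    rw [hzw, norm_mul, Complex.norm_I, mul_one, Complex.norm_real, Real.norm_eq_abs]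
  have d2 : ‖conj z - w‖ = a + b := by
    rw [hcw, norm_mul, Complex.norm_I, mul_one, Complex.norm_real, Real.norm_eq_abs, abs_neg,
      abs_of_pos (by linarith)]
  have d3 : |(conj z).im| = a := by
    rw [Complex.conj_im, abs_neg, hzi, abs_of_pos ha]
  have hFw : ‖⟪q, Rz S w q⟫_ℂ‖ ≥ b * ‖Rz S w q‖ ^ 2 := by
    have e1 : (⟪q, Rz S w q⟫_ℂ).im = w.im * ‖Rz S w q‖ ^ 2 := Pool.Agent.H12R2.And.im_inner hS hw0 q
    rw [hwi] at e1
    have e2 := Complex.abs_im_le_norm ⟪q, Rz S w q⟫_ℂ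
    rw [e1, abs_of_nonneg (by positivity)] at e2
    exact e2
  have hdiff : ‖⟪q, Rz S z q⟫_ℂ‖ ≤ (1 + (M + 1) * (2 + 1 / m)) * ‖⟪q, Rz S w q⟫_ℂ‖ := by
    have e1 : ⟪q, Rz S z q⟫_ℂ = ⟪q, Rz S w q⟫_ℂ + (z - w) * ⟪Rz S (conj z) q, Rz S w q⟫_ℂ := by
      rw [r1 z hz0, inner_add_right, inner_smul_right]
      congr 2
      have := rz_adj hS hzc q (Rz S w q)
      rw [Complex.conj_conj] at this
      exact this
    have e2 := n1 (conj z) hzc
    rw [d2, d3] at e2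
    have e3 : ‖⟪Rz S (conj z) q, Rz S w q⟫_ℂ‖ ≤ (1 + (a + b) / a) * ‖Rz S w q‖ ^ 2 := by
      calc _ ≤ ‖Rz S (conj z) q‖ * ‖Rz S w q‖ := norm_inner_le_norm _ _
        _ ≤ ((1 + (a + b) / a) * ‖Rz S w q‖) * ‖Rz S w q‖ :=
            mul_le_mul_of_nonneg_right e2 (norm_nonneg _)
        _ = _ := by ring
    have e4 : ‖(z - w) * ⟪Rz S (conj z) q, Rz S w q⟫_ℂ‖ ≤
        (M + 1) * (2 + 1 / m) * (b * ‖Rz S w q‖ ^ 2) := by
      rw [norm_mul, d1]
      have f1 : |a - b| ≤ (M + 1) * b := by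
        rw [abs_le]
        constructor
        · nlinarith
        · nlinarith
      have f2 : 1 + (a + b) / a ≤ 2 + 1 / m := by
        have g1 : (a + b) / a = 1 + b / a := by field_simp
        have g2 : b / a ≤ 1 / m := by
          rw [div_le_div_iff₀ ha hm]
          linarith
        rw [g1]
        linarith
      calc _ ≤ ((M + 1) * b) * ((1 + (a + b) / a) * ‖Rz S w q‖ ^ 2) :=
            mul_le_mul f1 e3 (norm_nonneg _) (by positivity)
        _ ≤ ((M + 1) * b) * ((2 + 1 / m) * ‖Rz S w q‖ ^ 2) := by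
            refine mul_le_mul_of_nonneg_left ?_ (by positivity)
            exact mul_le_mul_of_nonneg_right f2 (by positivity)
        _ = _ := by ring
    rw [e1]
    calc _ ≤ ‖⟪q, Rz S w q⟫_ℂ‖ + ‖(z - w) * ⟪Rz S (conj z) q, Rz S w q⟫_ℂ‖ := norm_add_le _ _
      _ ≤ ‖⟪q, Rz S w q⟫_ℂ‖ + (M + 1) * (2 + 1 / m) * (b * ‖Rz S w q‖ ^ 2) := by linarith
      _ ≤ ‖⟪q, Rz S w q⟫_ℂ‖ + (M + 1) * (2 + 1 / m) * ‖⟪q, Rz S w q⟫_ℂ‖ := by
          have : 0 ≤ (M + 1) * (2 + 1 / m) := by positivity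
          have := mul_le_mul_of_nonneg_left hFw this
          linarith
      _ = _ := by ring
  have nz : ‖z‖ ≤ |x| + a := by
    rw [hz]
    calc _ ≤ ‖(x : ℂ)‖ + ‖(a : ℂ) * Complex.I‖ := norm_add_le _ _
      _ = |x| + a := by
        rw [norm_mul, Complex.norm_I, mul_one, Complex.norm_real, Complex.norm_real,
          Real.norm_eq_abs, Real.norm_eq_abs, abs_of_pos ha]
  have nw : ‖w‖ ≤ |x| + b := by
    rw [hw]
    calc _ ≤ ‖(x : ℂ)‖ + ‖(b : ℂ) * Complex.I‖ := norm_add_le _ _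
      _ = |x| + b := by
        rw [norm_mul, Complex.norm_I, mul_one, Complex.norm_real, Complex.norm_real,
          Real.norm_eq_abs, Real.norm_eq_abs, abs_of_pos hb]
  have hE := norm_eTe (T := T) he
  have sz := schur hT he hz0
  have sw := schur hT he hw0
  rw [← hq, ← hSd] at sz sw
  have u1 : ‖⟪q, Rz S w q⟫_ℂ‖ ≤ ‖wf T e w‖ + (|x| + b + ‖T‖) := by
    have : ⟪q, Rz S w q⟫_ℂ = wf T e w - (w - ⟪e, T e⟫_ℂ) := by rw [sw]; ring
    rw [this]
    calc _ ≤ ‖wf T e w‖ + ‖w - ⟪e, T e⟫_ℂ‖ := norm_sub_le _ _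
      _ ≤ ‖wf T e w‖ + (‖w‖ + ‖⟪e, T e⟫_ℂ‖) := by
          have := norm_sub_le w ⟪e, T e⟫_ℂ
          linarith
      _ ≤ _ := by linarith
  have u2 : 0 ≤ 1 + (M + 1) * (2 + 1 / m) := by positivity
  rw [sz]
  calc _ ≤ ‖z - ⟪e, T e⟫_ℂ‖ + ‖⟪q, Rz S z q⟫_ℂ‖ := norm_add_le _ _
    _ ≤ (|x| + a + ‖T‖) + (1 + (M + 1) * (2 + 1 / m)) * (‖wf T e w‖ + (|x| + b + ‖T‖)) := by
        have v1 := norm_sub_le z ⟪e, T e⟫_ℂ
        have v2 := mul_le_mul_of_nonneg_left u1 u2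
        linarith
    _ = _ := by ring

end

end Pool.Agent.Helper12.Cc
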