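import Pool.Agent.Helper26.Cc.Stm

/-! # Two Weyl functions are rarely close to each other -/

set_option autoImplicit false

open MeasureTheory Filter Topology
open scoped ENNReal NNReal ComplexConjugate InnerProductSpace

namespace Pool.Agent.Helper12.Cc

open Pool.Agent.Helper26.Rg Pool.Agent.Helper26.Cc

/-- the set of real points where a quadratic polynomial is small -/
lemma quad_small (a b c : ℂ) (ha : a ≠ 0) {q : ℝ} (hq : 0 ≤ q) :
    volume {κ : ℝ | ‖a * (κ : ℂ) ^ 2 + b * κ + c‖ ≤ ‖a‖ * q ^ 2} ≤ ENNReal.ofReal (4 * q) := by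
  obtain ⟨s, hs⟩ := IsAlgClosed.exists_pow_nat_eq (b ^ 2 - 4 * a * c) (n := 2) (by norm_num)
  obtain ⟨r₁, hr₁⟩ : ∃ r : ℂ, r = (-b + s) / (2 * a) := ⟨_, rfl⟩
  obtain ⟨r₂, hr₂⟩ : ∃ r : ℂ, r = (-b - s) / (2 * a) := ⟨_, rfl⟩
  have hfac : ∀ κ : ℂ, a * κ ^ 2 + b * κ + c = a * ((κ - r₁) * (κ - r₂)) := by
    intro κ
    have h1 : a * ((κ - r₁) * (κ - r₂)) = a * κ ^ 2 + b * κ + (b ^ 2 - s ^ 2) / (4 * a) := by
      rw [hr₁, hr₂]
      field_simp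
      ring
    rw [h1, hs]
    field_simp
    ring
  have hsub : {κ : ℝ | ‖a * (κ : ℂ) ^ 2 + b * κ + c‖ ≤ ‖a‖ * q ^ 2} ⊆
      Set.Icc (r₁.re - q) (r₁.re + q) ∪ Set.Icc (r₂.re - q) (r₂.re + q) := by
    intro κ hκ
    have h1 : ‖a * (κ : ℂ) ^ 2 + b * κ + c‖ ≤ ‖a‖ * q ^ 2 := hκ
    rw [hfac, norm_mul, norm_mul] at h1
    have h2 : ‖(κ : ℂ) - r₁‖ * ‖(κ : ℂ) - r₂‖ ≤ q ^ 2 :=
      le_of_mul_le_mul_left h1 (norm_pos_iff.2 ha)
    have h3 : ∀ r : ℂ, ‖(κ : ℂ) - r‖ ≤ q → κ ∈ Set.Icc (r.re - q) (r.re + q) := by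
      intro r hr
      have h4 := Complex.abs_re_le_norm ((κ : ℂ) - r)
      rw [Complex.sub_re, Complex.ofReal_re] at h4
      have h5 := abs_le.1 (h4.trans hr)
      exact ⟨by linarith [h5.1], by linarith [h5.2]⟩
    rcases le_or_gt ‖(κ : ℂ) - r₁‖ q with h | h
    · exact Or.inl (h3 _ h)
    · refine Or.inr (h3 _ ?_)
      by_contra h6
      rw [not_le] at h6
      have : q * q < ‖(κ : ℂ) - r₁‖ * ‖(κ : ℂ) - r₂‖ :=
        mul_lt_mul'' h h6 hq hq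
      nlinarith
  refine (measure_mono hsub).trans ((measure_union_le _ _).trans ?_)
  rw [Real.volume_Icc, Real.volume_Icc, ← ENNReal.ofReal_add (by linarith) (by linarith)]
  exact ENNReal.ofReal_le_ofReal (by linarith)

/-- `TWO` -/
theorem two (hMob : S_Mob) : S_Two := by
  intro ι T hT e e' he he' hee z z' hz hz' R R₀ δ δ₁ hR hR₀ hδ hδ₁ hA hC hC'
  have m1 := hMob ι T hT e e' he he' hee z hz
  have m2 := hMob ι T hT e e' he he' hee z' hz'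
  generalize wf (Pool.Agent.TH369.AN.cp T e') e z = A at m1 hA
  generalize wf (Pool.Agent.TH369.AN.cp T e') e z' = A' at m2 hA
  generalize wf (Pool.Agent.TH369.AN.cp T e) e' z = C at m1 hC
  generalize wf (Pool.Agent.TH369.AN.cp T e) e' z' = C' at m2 hC'
  generalize wf T e' z = w at m1
  generalize wf T e' z' = w' at m2
  have ha : 0 < ‖A - A'‖ := lt_of_lt_of_le hδ₁ hA
  obtain ⟨q, hq⟩ : ∃ q : ℝ, q = (R₀ + R) * Real.sqrt (δ / δ₁) := ⟨_, rfl⟩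
  have hq0 : 0 ≤ q := by rw [hq]; positivity
  have hq2 : q ^ 2 = (R₀ + R) ^ 2 * (δ / δ₁) := by
    rw [hq, mul_pow, Real.sq_sqrt (by positivity)]
  have key := quad_small (A - A') (-(A * (w + C') - A' * (w' + C))) (A * w * C' - A' * w' * C)
    (norm_pos_iff.1 ha) hq0
  refine (measure_mono ?_).trans (key.trans (le_of_eq (by rw [hq, mul_assoc])))
  rintro κ ⟨h1, h2⟩
  have hκ : |κ| ≤ R := abs_le.2 h1
  have m1 := m1 κ
  have m2 := m2 κ
  generalize wf (Pool.Agent.TH369.AN.pt T e' κ) e z = W at m1 h2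
  generalize wf (Pool.Agent.TH369.AN.pt T e' κ) e z' = W' at m2 h2
  show ‖(A - A') * (κ : ℂ) ^ 2 + -(A * (w + C') - A' * (w' + C)) * κ +
    (A * w * C' - A' * w' * C)‖ ≤ ‖A - A'‖ * q ^ 2
  have e1 : (A - A') * (κ : ℂ) ^ 2 + -(A * (w + C') - A' * (w' + C)) * κ +
      (A * w * C' - A' * w' * C) = (W - W') * ((C - κ) * (C' - κ)) := by
    linear_combination -(C' - κ) * m1 + (C - κ) * m2
  have hn : ∀ D : ℂ, ‖D‖ ≤ R₀ → ‖D - κ‖ ≤ R₀ + R := by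
    intro D hD
    refine (norm_sub_le _ _).trans ?_
    rw [Complex.norm_real, Real.norm_eq_abs]
    linarith
  rw [e1, norm_mul, norm_mul]
  have h3 : ‖C - κ‖ * ‖C' - κ‖ ≤ (R₀ + R) * (R₀ + R) :=
    mul_le_mul (hn C hC) (hn C' hC') (norm_nonneg _) (by positivity)
  calc ‖W - W'‖ * (‖C - κ‖ * ‖C' - κ‖) ≤ δ * ((R₀ + R) * (R₀ + R)) :=
        mul_le_mul h2.le h3 (by positivity) hδ.le
    _ = δ₁ * q ^ 2 := by
        rw [hq2]
        field_simp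
    _ ≤ ‖A - A'‖ * q ^ 2 := mul_le_mul_of_nonneg_right hA (by positivity)

end Pool.Agent.Helper12.Cc
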